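import Mathlib

/-!
# MP_06c496_co : every simple polygon can be carried to a regular polygon by
finitely many vertex-centroid moves

The plane is `ℂ`.  The proof shows more (`reach_regular`): every `n`-tuple of points that do
not all lie on one line can be carried to a regular `n`-gon.

Idea.  A move of the vertex `i` is a dilation of `v i` about the centroid `M` of the other
vertices, with an arbitrary real ratio.  Six such moves, alternately at `i` and `j`, can be
chosen so that `v j` returns to its place while `v i` is translated by a real multiple of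
`v j - M` (`trans_reach`).  Hence in a non-collinear configuration any single vertex can be
carried to any point of the plane, all other vertices being back at their places
(`reach_update`), and then one vertex after the other is brought to its final position.
-/

namespace Pool.Agent.Results.MP_06c496_co.CentroidMoves

open Finset

/-- The vertex centroid of an `n`-tuple of points of the plane. -/
noncomputable def cen {n : ℕ} (v : Fin n → ℂ) : ℂ := (∑ i, v i) / n

/-- One vertex-centroid move: for one index `i` with `v i ≠ cen v` the point `v i` is replaced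
by a point `p` of the line through `v i` and `cen v`. -/
def Move {n : ℕ} (v w : Fin n → ℂ) : Prop :=
  ∃ i, v i ≠ cen v ∧ ∃ p ∈ line[ℝ, v i, cen v], w = Function.update v i p

/-- `w` is obtained from `v` by a finite sequence of vertex-centroid moves. -/
def Reach {n : ℕ} (v w : Fin n → ℂ) : Prop := Relation.ReflTransGen Move v w

/-- Simple polygon: the vertices are distinct, two consecutive edges meet only in their common
vertex, and two different edges that are not consecutive are disjoint. Here `finRotate n i` is
the index following `i` in the cyclic order. -/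
def IsSimple {n : ℕ} (v : Fin n → ℂ) : Prop :=
  Function.Injective v ∧
  (∀ i, segment ℝ (v i) (v (finRotate n i)) ∩
      segment ℝ (v (finRotate n i)) (v (finRotate n (finRotate n i))) = {v (finRotate n i)}) ∧
  (∀ i j, j ≠ i → j ≠ finRotate n i → i ≠ finRotate n j →
    Disjoint (segment ℝ (v i) (v (finRotate n i))) (segment ℝ (v j) (v (finRotate n j))))

/-- Regular polygon: the vertices are `z₀ + ρ * exp (2 π i k / n)`, `k = 0, ..., n - 1`, with
centre `z₀` and a nonzero complex number `ρ`. -/
def IsRegular {n : ℕ} (w : Fin n → ℂ) : Prop :=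
  ∃ z₀ ρ : ℂ, ρ ≠ 0 ∧ ∀ k : Fin n, w k = z₀ + ρ * Complex.exp (2 * Real.pi * Complex.I * k / n)

/-- The sum of all points except the `i`-th one. -/
noncomputable def oth {n : ℕ} (v : Fin n → ℂ) (i : Fin n) : ℂ := ∑ l ∈ univ.erase i, v l

theorem Reach.trans {n : ℕ} {u v w : Fin n → ℂ} (h : Reach u v) (h' : Reach v w) : Reach u w :=
  Relation.ReflTransGen.trans h h'

theorem reach_refl {n : ℕ} (v : Fin n → ℂ) : Reach v v := Relation.ReflTransGen.refl

theorem sum_eq {n : ℕ} (v : Fin n → ℂ) (i : Fin n) : ∑ l, v l = v i + oth v i := by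
  unfold oth
  rw [← Finset.add_sum_erase _ _ (Finset.mem_univ i)]

/-- A move is a dilation about the centroid of the other points. -/
theorem dil {n : ℕ} (hn : 3 ≤ n) (v : Fin n → ℂ) (i : Fin n) (a : ℝ) :
    Reach v (Function.update v i (a * v i + (1 - a) * (oth v i / (n - 1)))) := by
  have hn1 : (n : ℂ) ≠ 0 := by
    have : n ≠ 0 := by omega
    exact_mod_cast this
  have hn2 : (n : ℂ) - 1 ≠ 0 := by
    have : (n : ℝ) - 1 ≠ 0 := by
      have : (3 : ℝ) ≤ n := by exact_mod_cast hn
      linarith
    exact_mod_cast this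
  have hs := sum_eq v i
  by_cases h : v i = cen v
  · have h2 : oth v i = (n - 1) * v i := by
      have h3 : v i * n = ∑ l, v l := by
        rw [h]
        unfold cen
        field_simp
      rw [hs] at h3
      linear_combination -h3
    have h4 : (a : ℂ) * v i + (1 - a) * (oth v i / (n - 1)) = v i := by
      rw [h2]
      field_simp
      ring
    rw [h4, Function.update_eq_self]
    exact reach_refl v
  · refine Relation.ReflTransGen.single ⟨i, h, _, ?_, rfl⟩
    have h5 : (a : ℂ) * v i + (1 - a) * (oth v i / (n - 1)) =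
        AffineMap.lineMap (v i) (cen v) ((1 - a) * n / (n - 1) : ℝ) := by
      rw [AffineMap.lineMap_apply, vsub_eq_sub, vadd_eq_add, Complex.real_smul]
      unfold cen
      rw [hs]
      push_cast
      field_simp
      ring
    rw [h5]
    exact AffineMap.lineMap_mem_affineSpan_pair _ _ _

/-- Two vertices at prescribed places, the others as in `v`. -/
noncomputable def st {n : ℕ} (v : Fin n → ℂ) (i j : Fin n) (x y : ℂ) : Fin n → ℂ :=
  Function.update (Function.update v i x) j y

/-- The sum of all points except the `i`-th and the `j`-th one. -/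
noncomputable def oth2 {n : ℕ} (v : Fin n → ℂ) (i j : Fin n) : ℂ :=
  ∑ l ∈ (univ.erase i).erase j, v l

theorem oth_update_self {n : ℕ} (v : Fin n → ℂ) (i : Fin n) (z : ℂ) :
    oth (Function.update v i z) i = oth v i := by
  unfold oth
  refine Finset.sum_congr rfl fun l hl => ?_
  rw [Function.update_of_ne (Finset.ne_of_mem_erase hl)]

theorem oth_eq {n : ℕ} (v : Fin n → ℂ) {i j : Fin n} (hij : j ≠ i) :
    oth v i = v j + oth2 v i j := by
  unfold oth oth2
  rw [← Finset.add_sum_erase _ _ (Finset.mem_erase.2 ⟨hij, Finset.mem_univ j⟩)]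

theorem oth_st_left {n : ℕ} (v : Fin n → ℂ) {i j : Fin n} (hij : j ≠ i) (x y : ℂ) :
    oth (st v i j x y) i = y + oth2 v i j := by
  rw [oth_eq _ hij]
  unfold st oth2
  rw [Function.update_self]
  congr 1
  refine Finset.sum_congr rfl fun l hl => ?_
  rw [Function.update_of_ne (Finset.ne_of_mem_erase hl),
    Function.update_of_ne (Finset.ne_of_mem_erase (Finset.mem_of_mem_erase hl))]

theorem oth_st_right {n : ℕ} (v : Fin n → ℂ) {i j : Fin n} (hij : j ≠ i) (x y : ℂ) :
    oth (st v i j x y) j = x + oth2 v i j := by
  rw [oth_eq _ hij.symm]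
  unfold st oth2
  rw [Function.update_of_ne hij.symm, Function.update_self, Finset.erase_right_comm]
  congr 1
  refine Finset.sum_congr rfl fun l hl => ?_
  rw [Function.update_of_ne (Finset.ne_of_mem_erase hl),
    Function.update_of_ne (Finset.ne_of_mem_erase (Finset.mem_of_mem_erase hl))]

theorem step_left {n : ℕ} (hn : 3 ≤ n) (v : Fin n → ℂ) {i j : Fin n} (hij : j ≠ i) (x y : ℂ)
    (a : ℝ) : Reach (st v i j x y)
      (st v i j (a * x + (1 - a) * ((y + oth2 v i j) / (n - 1))) y) := by
  have h := dil hn (st v i j x y) i a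
  rw [oth_st_left v hij] at h
  have h1 : st v i j x y i = x := by
    unfold st
    rw [Function.update_of_ne hij.symm, Function.update_self]
  rw [h1] at h
  convert h using 1
  unfold st
  rw [Function.update_comm hij, Function.update_idem, Function.update_comm hij.symm]

theorem step_right {n : ℕ} (hn : 3 ≤ n) (v : Fin n → ℂ) {i j : Fin n} (hij : j ≠ i) (x y : ℂ)
    (a : ℝ) : Reach (st v i j x y)
      (st v i j x (a * y + (1 - a) * ((x + oth2 v i j) / (n - 1)))) := by
  have h := dil hn (st v i j x y) j a
  rw [oth_st_right v hij] at h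
  have h1 : st v i j x y j = y := by
    unfold st
    rw [Function.update_self]
  rw [h1] at h
  convert h using 1
  unfold st
  rw [Function.update_idem]

/-- Six moves translate `v i` and bring `v j` back. -/
theorem trans_aux {n : ℕ} (hn : 3 ≤ n) (v : Fin n → ℂ) {i j : Fin n} (hij : j ≠ i) (x y : ℂ)
    (nu : ℝ) (hnu : nu ≠ 0) :
    Reach (st v i j x y) (st v i j (x + (-(nu - 1) * (2 + (1 / ((n : ℝ) - 1)) ^ 2) *
      (1 + 1 / ((n : ℝ) - 1)) / (2 * (1 / ((n : ℝ) - 1))) : ℝ) *
        (y - (y + oth2 v i j) / (n - 1))) y) := by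
  have hn0 : (3 : ℝ) ≤ n := by exact_mod_cast hn
  obtain ⟨k, hk⟩ : ∃ k : ℝ, k = 1 / ((n : ℝ) - 1) := ⟨_, rfl⟩
  have hk0 : k ≠ 0 := by
    rw [hk]
    apply one_div_ne_zero
    linarith
  have hkC : ∀ z : ℂ, z / ((n : ℂ) - 1) = k * z := by
    intro z
    rw [hk]
    push_cast
    rw [div_mul_eq_mul_div, one_mul]
  have hk2 : (1 : ℝ) + k ^ 2 ≠ 0 := by positivity
  have s1 := step_left hn v hij x y (1 / nu)
  have s2 := (s1.trans (step_right hn v hij _ y ((1 + k ^ 2) / k ^ 2)))
  have s3 := (s2.trans (step_left hn v hij _ _ (1 / 2)))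
  have s4 := (s3.trans (step_right hn v hij _ _ nu))
  have s5 := (s4.trans (step_left hn v hij _ _ 2))
  have s6 := (s5.trans (step_right hn v hij _ _ (k ^ 2 / (1 + k ^ 2))))
  convert s6 using 1
  have hnuC : (nu : ℂ) ≠ 0 := by exact_mod_cast hnu
  have hkC0 : (k : ℂ) ≠ 0 := by exact_mod_cast hk0
  have hk2C : (1 : ℂ) + (k : ℂ) ^ 2 ≠ 0 := by exact_mod_cast hk2
  rw [← hk]
  simp only [hkC]
  push_cast
  generalize oth2 v i j = R
  generalize (k : ℂ) = K at *
  generalize (nu : ℂ) = N at *
  congr 1
  · field_simp
    ring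
  · field_simp
    ring

theorem st_self {n : ℕ} (v : Fin n → ℂ) {i j : Fin n} (hij : j ≠ i) (x : ℂ) :
    st v i j x (v j) = Function.update v i x := by
  unfold st
  have h : v j = (Function.update v i x) j := by rw [Function.update_of_ne hij]
  rw [h, Function.update_eq_self]

/-- The vertex `i` can be translated by real multiples of `v j - M`, where `M` is the centroid
of all vertices but the `i`-th one. -/
theorem trans_reach {n : ℕ} (hn : 3 ≤ n) (v : Fin n → ℂ) {i j : Fin n} (hij : j ≠ i) (z : ℂ)
    (c : ℝ) : Reach (Function.update v i z)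
      (Function.update v i (z + c * (v j - oth v i / (n - 1)))) := by
  have hn0 : (3 : ℝ) ≤ n := by exact_mod_cast hn
  obtain ⟨k, hk⟩ : ∃ k : ℝ, k = 1 / ((n : ℝ) - 1) := ⟨_, rfl⟩
  have hk0 : 0 < k := by
    rw [hk]
    apply one_div_pos.2
    linarith
  obtain ⟨A, hA⟩ : ∃ A : ℝ, A = (2 + k ^ 2) * (1 + k) / (2 * k) := ⟨_, rfl⟩
  have hA0 : 0 < A := by rw [hA]; positivity
  -- all multiples except one
  have key : ∀ (z : ℂ) (c : ℝ), c ≠ A → Reach (Function.update v i z)
      (Function.update v i (z + c * (v j - oth v i / (n - 1)))) := by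
    intro z c hc
    have hnu : 1 - c / A ≠ 0 := by
      intro h
      apply hc
      field_simp at h
      linarith
    have h := trans_aux hn v hij z (v j) (1 - c / A) hnu
    rw [st_self v hij, st_self v hij, ← oth_eq v hij, ← hk] at h
    have hc' : -(1 - c / A - 1) * (2 + k ^ 2) * (1 + k) / (2 * k) = c := by
      have : -(1 - c / A - 1) * (2 + k ^ 2) * (1 + k) / (2 * k) = (c / A) * A := by
        rw [hA]
        ring
      rw [this]
      field_simp
    rw [hc'] at h
    exact h
  by_cases hc : c = A
  · have h1 := key z (c / 2) (by rw [hc]; intro h; linarith)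
    have h2 := key (z + (c / 2 : ℝ) * (v j - oth v i / (n - 1))) (c / 2)
      (by rw [hc]; intro h; linarith)
    have h3 := h1.trans h2
    convert h3 using 2
    push_cast
    ring
  · exact key z c hc

/-- The vertex `i` can be translated by real linear combinations of the `v j - M`. -/
theorem comb_reach {n : ℕ} (hn : 3 ≤ n) (v : Fin n → ℂ) (i : Fin n) (c : Fin n → ℝ) (z : ℂ)
    (s : Finset (Fin n)) (hs : i ∉ s) : Reach (Function.update v i z)
      (Function.update v i (z + ∑ l ∈ s, c l * (v l - oth v i / (n - 1)))) := by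
  classical
  induction s using Finset.induction_on with
  | empty => simpa using reach_refl _
  | insert j s hj ih =>
    rw [Finset.mem_insert, not_or] at hs
    have h1 := ih hs.2
    have h2 := trans_reach hn v (i := i) (j := j) (fun h => hs.1 h.symm)
      (z + ∑ l ∈ s, c l * (v l - oth v i / (n - 1))) (c j)
    have h3 := h1.trans h2
    rw [Finset.sum_insert hj]
    convert h3 using 2
    ring

/-- If not all points lie on one line, every vertex can be carried to every point. -/
theorem reach_update {n : ℕ} (hn : 3 ≤ n) (v : Fin n → ℂ)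
    (hv : ¬ Collinear ℝ (Set.range v)) (i : Fin n) (z : ℂ) :
    Reach v (Function.update v i z) := by
  obtain ⟨M, hM⟩ : ∃ M : ℂ, M = oth v i / (n - 1) := ⟨_, rfl⟩
  have hspan : Submodule.span ℝ (Set.range fun l => v l - M) = ⊤ := by
    by_contra hne
    apply hv
    have hlt : Module.finrank ℝ (Submodule.span ℝ (Set.range fun l => v l - M)) < 2 := by
      have := Submodule.finrank_lt hne
      rwa [Complex.finrank_real_complex] at this
    have hle : Module.finrank ℝ (Submodule.span ℝ (Set.range fun l => v l - M)) ≤ 1 := by omega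
    obtain ⟨u, hu⟩ := (finrank_le_one_iff (K := ℝ)).1 hle
    rw [collinear_iff_exists_forall_eq_smul_vadd]
    refine ⟨M, u, ?_⟩
    rintro p ⟨l, rfl⟩
    obtain ⟨r, hr⟩ := hu ⟨v l - M, Submodule.subset_span ⟨l, rfl⟩⟩
    refine ⟨r, ?_⟩
    have : r • (u : ℂ) = v l - M := congrArg Subtype.val hr
    rw [this, vadd_eq_add]
    ring
  have hz : z - M ∈ Submodule.span ℝ (Set.range fun l => v l - M) := by
    rw [hspan]
    trivial
  obtain ⟨c, hc⟩ := (Submodule.mem_span_range_iff_exists_fun ℝ).1 hz
  have h1 := dil hn v i (c i)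
  have h2 := comb_reach hn v i c (c i * v i + (1 - c i) * (oth v i / (n - 1))) (univ.erase i)
    (by simp)
  have h3 := h1.trans h2
  convert h3 using 2
  rw [← Finset.add_sum_erase _ _ (Finset.mem_univ i)] at hc
  simp only [Complex.real_smul] at hc
  rw [← hM]
  linear_combination -hc

/-- A configuration containing three non-collinear points is non-collinear. -/
theorem not_collinear_of_three {n : ℕ} {v w : Fin n → ℂ} {a b c : Fin n}
    (h : ¬ Collinear ℝ {v a, v b, v c}) (ha : w a = v a) (hb : w b = v b) (hc : w c = v c) :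
    ¬ Collinear ℝ (Set.range w) := by
  intro hw
  apply h
  apply hw.subset
  rintro p (rfl | rfl | rfl)
  · exact ⟨a, ha⟩
  · exact ⟨b, hb⟩
  · exact ⟨c, hc⟩

/-- In a non-collinear configuration there are three non-collinear points. -/
theorem exists_three {n : ℕ} (hn : 3 ≤ n) {v : Fin n → ℂ} (hv : ¬ Collinear ℝ (Set.range v)) :
    ∃ a b c, ¬ Collinear ℝ {v a, v b, v c} := by
  by_contra hcon
  push Not at hcon
  apply hv
  have h0 : 0 < n := by omega
  by_cases hall : ∀ l, v l = v ⟨0, h0⟩
  · have : Set.range v = {v ⟨0, h0⟩} := by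
      ext p
      constructor
      · rintro ⟨l, rfl⟩
        exact hall l
      · rintro rfl
        exact ⟨_, rfl⟩
    rw [this]
    exact collinear_singleton ℝ _
  · push Not at hall
    obtain ⟨b, hb⟩ := hall
    rw [collinear_iff_of_mem (Set.mem_range_self (⟨0, h0⟩ : Fin n))]
    refine ⟨v b - v ⟨0, h0⟩, ?_⟩
    rintro p ⟨l, rfl⟩
    have h1 := hcon ⟨0, h0⟩ b l
    rw [collinear_iff_of_mem (p₀ := v ⟨0, h0⟩) (by simp)] at h1
    obtain ⟨d, hd⟩ := h1
    obtain ⟨r, hr⟩ := hd (v b) (by simp)
    obtain ⟨t, ht⟩ := hd (v l) (by simp)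
    have hr0 : r ≠ 0 := by
      rintro rfl
      apply hb
      rw [hr]
      simp
    refine ⟨t / r, ?_⟩
    rw [ht, hr]
    simp only [vadd_eq_add, Complex.real_smul]
    have : (r : ℂ) ≠ 0 := by exact_mod_cast hr0
    push_cast
    field_simp
    ring

/-- A configuration with three non-collinear points `v a, v b, v c` can be carried to any
configuration with the same points at `a` and `b`. -/
theorem reach_of_two {n : ℕ} (hn : 3 ≤ n) {v w : Fin n → ℂ} {a b c : Fin n}
    (h : ¬ Collinear ℝ {v a, v b, v c}) (ha : w a = v a) (hb : w b = v b) : Reach v w := by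
  classical
  have hac : a ≠ c := by
    rintro rfl
    apply h
    have : ({v a, v b, v a} : Set ℂ) = {v a, v b} := by
      ext p
      simp only [Set.mem_insert_iff, Set.mem_singleton_iff]
      tauto
    rw [this]
    exact collinear_pair ℝ _ _
  have hbc : b ≠ c := by
    rintro rfl
    apply h
    have : ({v a, v b, v b} : Set ℂ) = {v a, v b} := by
      ext p
      simp only [Set.mem_insert_iff, Set.mem_singleton_iff]
      tauto
    rw [this]
    exact collinear_pair ℝ _ _
  have key : ∀ s : Finset (Fin n), a ∉ s → b ∉ s → c ∉ s → Reach v (s.piecewise w v) := by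
    intro s
    induction s using Finset.induction_on with
    | empty =>
      intro _ _ _
      rw [Finset.piecewise_empty]
      exact reach_refl v
    | insert j s hj ih =>
      intro h1 h2 h3
      rw [Finset.mem_insert, not_or] at h1 h2 h3
      have h4 := ih h1.2 h2.2 h3.2
      rw [Finset.piecewise_insert]
      refine h4.trans (reach_update hn _ ?_ j _)
      exact not_collinear_of_three h (Finset.piecewise_eq_of_notMem _ _ _ h1.2)
        (Finset.piecewise_eq_of_notMem _ _ _ h2.2) (Finset.piecewise_eq_of_notMem _ _ _ h3.2)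
  obtain ⟨s, hs⟩ : ∃ s : Finset (Fin n), s = ((univ.erase a).erase b).erase c := ⟨_, rfl⟩
  have h1 : a ∉ s := by simp [hs]
  have h2 : b ∉ s := by simp [hs]
  have h3 : c ∉ s := by simp [hs]
  have h4 := key s h1 h2 h3
  have h5 : ¬ Collinear ℝ (Set.range (s.piecewise w v)) :=
    not_collinear_of_three h (Finset.piecewise_eq_of_notMem _ _ _ h1)
      (Finset.piecewise_eq_of_notMem _ _ _ h2) (Finset.piecewise_eq_of_notMem _ _ _ h3)
  have h6 := h4.trans (reach_update hn _ h5 c (w c))
  convert h6 using 1
  ext l
  by_cases hlc : l = c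
  · subst hlc
    rw [Function.update_self]
  · rw [Function.update_of_ne hlc]
    by_cases hla : l = a
    · subst hla
      rw [Finset.piecewise_eq_of_notMem _ _ _ h1, ha]
    · by_cases hlb : l = b
      · subst hlb
        rw [Finset.piecewise_eq_of_notMem _ _ _ h2, hb]
      · rw [Finset.piecewise_eq_of_mem]
        simp [hs, hla, hlb, hlc]

/-- The vertices of the standard regular `n`-gon are distinct. -/
theorem exp_ne {n : ℕ} (hn : 3 ≤ n) {a b : Fin n} (hab : a ≠ b) :
    Complex.exp (2 * Real.pi * Complex.I * b / n) -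
      Complex.exp (2 * Real.pi * Complex.I * a / n) ≠ 0 := by
  intro h
  apply hab
  have hn1 : (n : ℂ) ≠ 0 := by
    have : n ≠ 0 := by omega
    exact_mod_cast this
  have h1 := sub_eq_zero.1 h
  rw [Complex.exp_eq_exp_iff_exists_int] at h1
  obtain ⟨m, hm⟩ := h1
  have hpi : (Real.pi : ℂ) ≠ 0 := by exact_mod_cast Real.pi_ne_zero
  have h2 : (b : ℂ) = a + m * n := by
    have h3 : (2 * Real.pi * Complex.I) * ((b : ℂ) - (a + m * n)) = 0 := by
      field_simp at hm
      linear_combination (2 * Real.pi * Complex.I) * hm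
    have h4 : (2 * Real.pi * Complex.I : ℂ) ≠ 0 := by
      simp [hpi]
    have := (mul_eq_zero.1 h3).resolve_left h4
    linear_combination this
  have h3 : ((b : ℕ) : ℤ) = (a : ℕ) + m * n := by exact_mod_cast h2
  have ha := a.2
  have hb := b.2
  have hm0 : m = 0 := by
    by_contra hne
    rcases lt_or_gt_of_ne hne with hlt | hgt
    · have : m ≤ -1 := by omega
      nlinarith
    · have : 1 ≤ m := by omega
      nlinarith
  rw [hm0] at h3
  ext
  omega

/-- Every non-collinear configuration can be carried to a regular polygon. -/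
theorem reach_regular {n : ℕ} (hn : 3 ≤ n) {v : Fin n → ℂ}
    (hv : ¬ Collinear ℝ (Set.range v)) : ∃ w, IsRegular w ∧ Reach v w := by
  obtain ⟨a, b, c, h⟩ := exists_three hn hv
  have hab' : v a ≠ v b := by
    intro hab
    apply h
    rw [hab]
    have : ({v b, v b, v c} : Set ℂ) = {v b, v c} := by
      ext p
      simp only [Set.mem_insert_iff, Set.mem_singleton_iff]
      tauto
    rw [this]
    exact collinear_pair ℝ _ _
  have hab : a ≠ b := fun h => hab' (by rw [h])
  have hne := exp_ne hn hab
  obtain ⟨E, hE⟩ : ∃ E : Fin n → ℂ,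
      E = fun k : Fin n => Complex.exp (2 * Real.pi * Complex.I * k / n) :=
    ⟨_, rfl⟩
  have hne' : E b - E a ≠ 0 := by
    rw [hE]
    exact hne
  refine ⟨fun k => (v a - (v b - v a) / (E b - E a) * E a) + (v b - v a) / (E b - E a) * E k,
    ⟨v a - (v b - v a) / (E b - E a) * E a, (v b - v a) / (E b - E a), ?_, fun k => ?_⟩, ?_⟩
  · exact div_ne_zero (sub_ne_zero.2 hab'.symm) hne'
  · rw [hE]
  · refine reach_of_two hn h ?_ ?_
    · simp
    · field_simp
      ring

/-- A simple polygon is not contained in a line. -/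
theorem IsSimple.not_collinear {n : ℕ} (hn : 3 ≤ n) {v : Fin n → ℂ} (hv : IsSimple v) :
    ¬ Collinear ℝ (Set.range v) := by
  intro hcol
  obtain ⟨hinj, hadj, -⟩ := hv
  rw [collinear_iff_exists_forall_eq_smul_vadd] at hcol
  obtain ⟨p, d, hpd⟩ := hcol
  choose x hx using fun k => hpd (v k) ⟨k, rfl⟩
  have hx' : ∀ k, v k = x k • d + p := fun k => by simpa using hx k
  have hn0 : NeZero n := ⟨by omega⟩
  obtain ⟨k, -, hk⟩ := Finset.exists_max_image univ x ⟨(0 : Fin n), Finset.mem_univ _⟩
  obtain ⟨i, hi⟩ := (finRotate n).surjective k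
  have h1 := hadj i
  rw [hi] at h1
  have hrot : finRotate n k ≠ k := by
    obtain ⟨m, rfl⟩ : ∃ m, n = m + 2 := ⟨n - 2, by omega⟩
    rw [finRotate_apply]
    intro h
    have : (1 : Fin (m + 2)) = 0 := by
      have h' : k + 1 = k + 0 := by rw [h, add_zero]
      exact add_left_cancel h'
    simp at this
  have hik : i ≠ k := by
    rintro rfl
    exact hrot hi
  -- a point between two points of the line lies in the segment
  have hseg : ∀ r s t : Fin n, x r ≤ x s → x s ≤ x t → v s ∈ segment ℝ (v r) (v t) := by
    intro r s t hrs hst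
    rw [segment_eq_image_lineMap]
    by_cases hrt : x r = x t
    · have h3 : x s = x r := le_antisymm (by rw [hrt]; exact hst) hrs
      refine ⟨0, by simp, ?_⟩
      rw [AffineMap.lineMap_apply_zero, hx' r, hx' s, h3]
    · have hlt : 0 < x t - x r := by
        have := lt_of_le_of_ne (hrs.trans hst) hrt
        linarith
      refine ⟨(x s - x r) / (x t - x r), ⟨?_, ?_⟩, ?_⟩
      · exact div_nonneg (by linarith) hlt.le
      · rw [div_le_one hlt]
        linarith
      · rw [AffineMap.lineMap_apply, vsub_eq_sub, vadd_eq_add, hx' r, hx' s, hx' t]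
        simp only [Complex.real_smul]
        have : ((x t : ℂ) - x r) ≠ 0 := by exact_mod_cast hlt.ne'
        push_cast
        field_simp
        ring
  rcases le_total (x i) (x (finRotate n k)) with hle | hle
  · have h2 : v (finRotate n k) ∈ segment ℝ (v i) (v k) ∩ segment ℝ (v k) (v (finRotate n k)) :=
      ⟨hseg _ _ _ hle (hk _ (Finset.mem_univ _)), right_mem_segment ℝ _ _⟩
    rw [h1] at h2
    exact hrot (hinj h2)
  · have h2 : v i ∈ segment ℝ (v i) (v k) ∩ segment ℝ (v k) (v (finRotate n k)) := by
      refine ⟨left_mem_segment ℝ _ _, ?_⟩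
      rw [segment_symm]
      exact hseg _ _ _ hle (hk _ (Finset.mem_univ _))
    rw [h1] at h2
    exact hik (hinj h2)

/-- Every simple polygon with at least three vertices can be carried to a regular polygon by
finitely many vertex-centroid moves. -/
theorem result : ∀ n : ℕ, 3 ≤ n → ∀ v : Fin n → ℂ, IsSimple v → ∃ w, IsRegular w ∧ Reach v w :=
  fun _ hn _ hv => reach_regular hn (hv.not_collinear hn)

end Pool.Agent.Results.MP_06c496_co.CentroidMoves
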